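import Pool.Agent.H654R3.RVV.Final

/-!
# Reachability under the Roth-Vande Vate mechanism is NP-hard

The reduction is from satisfiability.  For a variable there are two men and two women; in `M₀` the
men are matched to their second choices and in `M` to their first ones, and so are the women, so the
mechanism can rematch the four agents in two ways.  After the first of the two new pairs, the woman
`C i t` of a literal is alone; she stands for a literal made true.  For a clause there are three men
and three women; the gadget can only arrive at `M` if the clause man `A j`, already in `S`, is
proposed to by the woman of a literal which occurs in the clause.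
-/

namespace Pool.Agent.Results.MP_0acc7f_lc.ReachHard

open Pool.Agent.NPC Pool.Agent.H654R3.RVV

/-- **`REACH` is NP-hard.** Every language in `NP` has a polynomial-time reduction to `REACH`, all
of whose values are inputs of `REACH` as required (preference lists of `n` men and `n` women, a
matching `M₀` and a stable matching `M`). Hence `REACH` is not in `P` unless `P = NP`. -/
theorem result : (∀ L : Set (List Bool), InNP L → ∃ f : List Bool → Inp,
      PolyTime (fun x => bits (f x)) ∧ (∀ x, Legal (f x)) ∧
      ∀ x, x ∈ L ↔ Reaches (market (f x).1) (ofList (f x).2.1) (ofList (f x).2.2)) ∧
    NPHard (lang REACH) ∧
    (InP (lang REACH) → ∀ L : Set (List Bool), InNP L → InP L) :=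
  Pool.Agent.H654R3.RVV.main

end Pool.Agent.Results.MP_0acc7f_lc.ReachHard
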